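import Pool.Agent.H44.ARW5

open MeasureTheory Pool.Agent.H44.ARW

theorem Pool.Agent.Results.MP_8df5c2_pr.Q1True.result {d N : ℕ} (hN : 1 ≤ N)
    (ν : Measure (Fin d → ℤ)) [IsProbabilityMeasure ν] {α : ℝ} (hα : 0 < α) (h : BT ν α)
    (hd : α * N < d) (A : Set (Fin d → ℤ)) (hA : ((d - α * N : ℝ) : EReal) < Dim A) :
    ∀ᵐ ω ∂Measure.infinitePi (fun _ : Fin N × ℕ => ν),
      ¬ Bornology.IsBounded (Set.range (arw ω) ∩ A) := by
  obtain ⟨N, rfl⟩ := Nat.exists_eq_add_one.2 hN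
  rw [Nat.cast_succ, mul_comm] at hd hA
  exact Q1 ν h hα N hd A hA
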